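import Pool.Agent.W989.TN.Stm
import Pool.Agent.W966.Param

set_option autoImplicit false

/-! # Choice of the primes -/

namespace Pool.Agent.W479.TN

open Pool.Agent.W989.TN

theorem primorial_step (z : ℕ) : primorial (z + 1) ≤ (z + 1) * primorial z := by
  unfold primorial
  rw [Finset.range_add_one (n := z + 1), Finset.filter_insert]
  split_ifs with h
  · rw [Finset.prod_insert (by simp)]
  · exact Nat.le_mul_of_pos_left _ (Nat.succ_pos z)

theorem t_PRI : PRI := by
  obtain ⟨B, hB⟩ := Filter.eventually_atTop.1 Pool.Agent.W966.Kron.primorial_lower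
  refine ⟨2 ^ B + 1, fun N hN => ?_⟩
  have hpos : 0 < 2 ^ B := by positivity
  have hn : 2 * N ≤ 2 ^ (Nat.clog 2 (2 * N)) := Nat.le_pow_clog (by norm_num) _
  have hBn : B ≤ Nat.clog 2 (2 * N) := by
    by_contra h
    push Not at h
    have := Nat.pow_le_pow_right (show 0 < 2 by norm_num) h.le
    omega
  have h1 : ∃ z, 2 * N ≤ primorial z := ⟨_, hn.trans (hB _ hBn)⟩
  classical
  have hz : 2 * N ≤ primorial (Nat.find h1) := Nat.find_spec h1
  have hle : Nat.find h1 ≤ 2 * Nat.clog 2 (2 * N) := Nat.find_min' h1 (hn.trans (hB _ hBn))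
  have h2 : 2 ≤ Nat.find h1 := by
    by_contra h
    have h3 : Nat.find h1 = 0 ∨ Nat.find h1 = 1 := by omega
    have h4 : primorial (Nat.find h1) = 1 := by
      rcases h3 with h3 | h3 <;> rw [h3] <;> decide
    omega
  refine ⟨Nat.find h1, h2, hz, ?_, hle⟩
  obtain ⟨w, hw⟩ : ∃ w, Nat.find h1 = w + 1 := ⟨Nat.find h1 - 1, by omega⟩
  have h5 : ¬ 2 * N ≤ primorial w := Nat.find_min h1 (by omega)
  rw [hw]
  calc primorial (w + 1) ≤ (w + 1) * primorial w := primorial_step w
    _ ≤ (w + 1) * (2 * N) := Nat.mul_le_mul_left _ (by omega)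
    _ = 2 * N * (w + 1) := by ring

end Pool.Agent.W479.TN
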